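import Mathlib
import Pool.Agent.V11308.RW2

/-!
MP_c292ad_nt, Q2.  With `W_n = ∑_k C(n+k,2k) C(2k,k) 3/(2k-3)`, one has
`∑_{k<n} (2k+1) W_k^2 ≡ n^2 (mod 8 n)` for every positive integer `n`.
-/

namespace Pool.Agent.Results.MP_c292ad_nt.WSquares

open Finset Pool.Agent.V11308

/-- `W_n = ∑_{k=0}^n C(n+k,2k) C(2k,k) 3 / (2k-3)`, as a rational number -/
def W (n : ℕ) : ℚ := ∑ k ∈ range (n + 1),
  ((n + k).choose (2 * k) : ℚ) * ((2 * k).choose k : ℚ) * (3 / (2 * (k : ℚ) - 3))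

lemma W_eq (n : ℕ) : W n = ((RW.WI n : ℤ) : ℚ) := by
  unfold W RW.WI
  push_cast
  refine sum_congr rfl (fun k _ => ?_)
  have h : (2 * (k : ℚ) - 3) * RW.sW k = 3 * ((2 * k).choose k : ℚ) := by
    exact_mod_cast RW.sW_eq k
  have hne : (2 * (k : ℚ) - 3) ≠ 0 := by
    intro h0
    have h1 : (2 * (k : ℤ) - 3) = 0 := by exact_mod_cast h0
    omega
  field_simp
  linear_combination (-((n + k).choose (2 * k) : ℚ)) * h

/-- All `W_n` are integers, and `8 n` divides `∑_{k<n} (2k+1) W_k^2 - n^2` in `ℤ`,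
for every positive integer `n`. -/
theorem result : (∀ n : ℕ, ∃ a : ℤ, W n = (a : ℚ)) ∧
    ∀ n : ℕ, 0 < n → ∃ z : ℤ,
      ∑ k ∈ range n, (2 * (k : ℚ) + 1) * W k ^ 2 = (n : ℚ) ^ 2 + 8 * (n : ℚ) * (z : ℚ) := by
  refine ⟨fun n => ⟨RW.WI n, W_eq n⟩, fun n hn => ?_⟩
  obtain ⟨z, hz⟩ := RW.W_main n hn
  refine ⟨z, ?_⟩
  have h := congrArg (Int.cast : ℤ → ℚ) hz
  push_cast at h
  have e : ∑ k ∈ range n, (2 * (k : ℚ) + 1) * W k ^ 2 =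
      ∑ k ∈ range n, (2 * (k : ℚ) + 1) * ((RW.WI k : ℤ) : ℚ) ^ 2 :=
    sum_congr rfl (fun k _ => by rw [W_eq])
  rw [e]
  linear_combination h

end Pool.Agent.Results.MP_c292ad_nt.WSquares
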